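import Pool.Agent.Helper63.Rd.Sol
import Pool.Agent.Helper80.RD.AlL
import Pool.Agent.Helper80.RD.AlP
import Pool.Graph.R_seed8.Y449.MK.Sub

/-!
# Closed affine three-manifolds with reducible linear holonomy or a solvable normal subgroup

The Markus conjecture says that a closed affine manifold with parallel volume is complete. Let such
a manifold of dimension three be a quotient `Γ \ Ω` of a domain `Ω` of the affine space. We show that
it is complete, that is `Ω` is the whole space, if the linear holonomy of a subgroup of finite index
of `Γ` preserves a line or a plane, or if a subgroup of finite index of `Γ` has an infinite solvable
normal subgroup. (By Carrière's theorem on flat Lorentzian manifolds the only quotients of domains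
which are left in dimension three are those whose linear holonomy is Zariski dense in `SL(3, ℝ)`.)

Outline for reducible linear holonomy. The linear holonomy acts by matrices `D` on a plane (the
quotient by the line, or the invariant plane) and by a character `χ` on the rest, `|det D| * |χ| = 1`.
If `χ = 1`, if `D` preserves a line, or if the normalised matrices `√χ D` are bounded, the manifold is
complete. Otherwise the normalised matrices form a discrete group: small elements of the commutator
subgroup, for which `χ = 1`, could be rescaled to small affine transformations, and their iterated
commutators would contradict the discreteness of the holonomy. The elements with trivial normalised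
matrix have trivial holonomy: otherwise there is a nontrivial normal subgroup of commuting unipotent
transformations, whose logarithms are a lattice in a space of triangular matrices of size four, and
the determinants of the adjoint action on the invariant subspaces of this space are powers of `χ`,
but have to be integers. Therefore the fundamental group acts properly discontinuously on the
hyperbolic plane, hence there is an equivariant map from the hyperbolic plane to the affine space,
whose image is a null set. This is impossible for a closed manifold with parallel volume.

If the linear holonomy is irreducible and there is an infinite solvable normal subgroup, there is a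
nontrivial normal subgroup of commuting unipotent transformations. The common fixed vectors of their
linear parts are an invariant subspace, so the transformations are translations, and these
translations span the space.
-/

set_option autoImplicit false

open Pool.Agent.W689.Mk

namespace Pool.Agent.Results.MP_df2bd8_gt.DimensionThree

/-- Let a closed affine three-manifold (or orbifold) with parallel volume be given by a connected
cover `X` with its group `Γ`, developing map `dev` and holonomy `hol`; assume that the developing map
is injective, so that the manifold is a quotient `Γ \ Ω` of a domain `Ω` of the affine space `E`. Let
`H` be a subgroup of finite index of `Γ`. Assume that the linear holonomy of `H` preserves a proper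
nonzero subspace `W` of `E`, a line or a plane, or that `H` has an infinite solvable normal
subgroup `N`. Then the affine structure is complete: the developing map is a homeomorphism. -/
theorem result (X Γ E : Type) [NormedAddCommGroup E] [NormedSpace ℝ E] [FiniteDimensional ℝ E]
    [TopologicalSpace X] [T2Space X] [SecondCountableTopology X] [ConnectedSpace X] [Group Γ]
    [MulAction Γ X] (dev : X → E) (hol : Γ →* (E ≃ᵃ[ℝ] E)) (D : AffData X Γ E dev hol)
    (hinj : Function.Injective dev) (hE : Module.finrank ℝ E = 3) (H : Subgroup Γ)
    (hH : H.FiniteIndex)
    (h : (∃ W : Submodule ℝ E, W ≠ ⊥ ∧ W ≠ ⊤ ∧ ∀ γ ∈ H, ∀ w ∈ W, (hol γ).linear w ∈ W) ∨
      ∃ N : Subgroup H, N.Normal ∧ Group.IsSolvable N ∧ Infinite N) : IsHomeomorph dev := by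
  have A := Pool.Agent.Y449.MK.restrict D H hH
  rcases h with ⟨W, hW0, hW1, hW⟩ | ⟨N, hN, hs, hinf⟩
  · exact Pool.Agent.Helper63.Rd.main Pool.Agent.Helper80.RD.al_line
      Pool.Agent.Helper80.RD.al_plane A hinj hE W hW0 hW1 fun γ w hw => hW γ γ.2 w hw
  · exact Pool.Agent.Helper63.Rd.solv_main Pool.Agent.Helper80.RD.al_line
      Pool.Agent.Helper80.RD.al_plane A hinj N hN hs hinf (Or.inl hE)

end Pool.Agent.Results.MP_df2bd8_gt.DimensionThree
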