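import Pool.Agent.Helper63.Ce.Main
import Pool.Graph.R_seed8.Y449.MK.Sub

/-!
# Closed affine manifolds whose fundamental group has a large centre

The Markus conjecture says that a closed affine manifold with parallel volume is complete. Let such
a manifold of dimension `n` be a quotient `Γ \ Ω` of a domain `Ω` of the affine space. We show that
it is complete, that is `Ω` is the whole space, if a subgroup of finite index of `Γ` has a free
abelian group of rank `n - 2` in its centre. In dimension three it is enough that a subgroup of
finite index has an element of infinite order in its centre, which is the case for the fundamental
groups of Seifert manifolds with fibres of infinite order.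

Outline. The central elements act on the affine space by unipotent affine transformations and are
contained in a group `U` of unipotent transformations, isomorphic to `ℝ^k`, which commutes with `Γ`,
acts freely on the affine space and preserves `Ω`. Let `S` be the span of the directions of the orbits
of `U`. If the quotient of the model vector space by `S` is of dimension at most one or has an
invariant line, the linear holonomy is solvable. Otherwise the orbits of `U` are the cosets of `S`,
the determinant on `S` is a power of the one on the plane, which therefore is `±1`, and the quotient of
`Γ` by the central lattice acts properly on a domain of the plane.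
-/

set_option autoImplicit false

open Pool.Agent.W689.Mk

namespace Pool.Agent.Results.MP_df2bd8_gt.LargeCentre

/-- Let a closed affine manifold (or orbifold) with parallel volume be given by a connected cover
`X` with its group `Γ`, developing map `dev` and holonomy `hol`; assume that the developing map is
injective, so that the manifold is a quotient `Γ \ Ω` of a domain `Ω` of the affine space `E`.
Assume that the centre of a subgroup `H` of finite index of `Γ` contains a free abelian group of rank
`k`, the image of the injective homomorphism `φ`, with `dim E ≤ k + 2`. Then the affine structure is
complete: the developing map is a homeomorphism. -/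
theorem result (X Γ E : Type) [NormedAddCommGroup E] [NormedSpace ℝ E] [FiniteDimensional ℝ E]
    [TopologicalSpace X] [T2Space X] [SecondCountableTopology X] [ConnectedSpace X] [Group Γ]
    [MulAction Γ X] (dev : X → E) (hol : Γ →* (E ≃ᵃ[ℝ] E)) (D : AffData X Γ E dev hol)
    (hinj : Function.Injective dev) (H : Subgroup Γ) (hH : H.FiniteIndex) (k : ℕ)
    (φ : Multiplicative (Fin k → ℤ) →* H) (hφ : Function.Injective φ)
    (hc : ∀ m, φ m ∈ Subgroup.center H) (hd : Module.finrank ℝ E ≤ k + 2) : IsHomeomorph dev :=
  Pool.Agent.Helper63.Ce.centre (Pool.Agent.Y449.MK.restrict D H hH) hinj φ hφ
    (fun m γ => (Subgroup.mem_center_iff.1 (hc m) γ).symm) hd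

end Pool.Agent.Results.MP_df2bd8_gt.LargeCentre
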