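import Pool.Agent.Helper63.Oe.Main

/-!
# The group of a quotient of a domain with parallel volume has one end

Let a closed affine manifold with parallel volume of dimension at least two be a quotient `Γ \ Ω` of
a domain `Ω` of the affine space `E`. The Markus conjecture says that `Ω` is the whole space; then
`Γ` is a Poincaré duality group and has one end. We show without assuming the conjecture that `Γ` has
exactly one end.

Outline. By Carrière's argument with ellipsoids the complement `Z` of `Ω` contains a line through
each of its frontier points. Hence each point of `Z` can be joined in `Z` with points arbitrarily far
away. Let `A` be a subset of `Γ` with finite coboundary and let `U` and `U'` be the unions of the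
translates by `A` and by its complement of a compact set which meets all orbits. Their intersection
lies in a compact subset `K` of `Ω`. Let `V` be the component of the complement of `K` which contains
the exterior of a large ball. It contains `Z`, so `Ω ∪ V = E`. The affine space is unicoherent,
therefore `Ω ∩ V` is connected (this is proved by lifting a map from `E` to the circle). Since `U`
and `U'` are relatively closed and disjoint in `Ω ∩ V`, one of them does not meet `V`. The complement
of `V` is a compact subset of `Ω`, so that `A` or its complement is finite.
-/

set_option autoImplicit false

open Pool.Agent.W689.Mk

namespace Pool.Agent.Results.MP_df2bd8_gt.OneEnded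

/-- Let a closed affine manifold (or orbifold) with parallel volume, of dimension at least two, be
given by a connected cover `X` with its group `Γ`, developing map `dev` and holonomy `hol`; assume
that the developing map is injective, so that the manifold is a quotient `Γ \ Ω` of a domain `Ω` of
the affine space `E`. Then the group `Γ` has exactly one end: it is infinite, and each subset `A` of
`Γ` such that `A` and its right translate `A g` differ by a finite set for each `g`, is finite or has
finite complement. -/
theorem result (X Γ E : Type) [NormedAddCommGroup E] [NormedSpace ℝ E] [FiniteDimensional ℝ E]
    [TopologicalSpace X] [T2Space X] [ConnectedSpace X] [Group Γ] [MulAction Γ X] (dev : X → E)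
    (hol : Γ →* (E ≃ᵃ[ℝ] E)) (D : AffData X Γ E dev hol) (hinj : Function.Injective dev)
    (hE : 2 ≤ Module.finrank ℝ E) :
    Infinite Γ ∧ ∀ A : Set Γ, (∀ g : Γ, {γ ∈ A | γ * g ∉ A}.Finite) → A.Finite ∨ Aᶜ.Finite :=
  Pool.Agent.Helper63.Oe.main D hinj hE

end Pool.Agent.Results.MP_df2bd8_gt.OneEnded
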