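import Pool.Agent.Helper63.Mk.Mod

/-!
# Quotients of domains with parallel vector fields

The Markus conjecture says that a closed affine manifold with parallel volume is complete. Let such
a manifold of dimension `n` be a quotient `Γ \ Ω` of a domain `Ω` of the affine space. We show that
it is complete, that is `Ω` is the whole space, if a finite cover of it has `n - 2` linearly
independent parallel vector fields. In dimension three one parallel vector field is enough.
-/

set_option autoImplicit false

open Pool.Agent.W689.Mk

namespace Pool.Agent.Results.MP_df2bd8_gt.ParallelVectorFields

/-- Let a closed affine manifold (or orbifold) with parallel volume be given by a connected cover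
`X` with its group `Γ`, developing map `dev` and holonomy `hol`; assume that the developing map is
injective, so that the manifold is a quotient `Γ \ Ω` of a domain `Ω` of the affine space `E`.
Assume that the linear parts of the holonomy of a subgroup `H` of finite index fix all vectors of a
subspace `W` of `E` with `dim E ≤ dim W + 2`, so that a finite cover of the manifold has `dim E - 2`
linearly independent parallel vector fields. Then the affine structure is complete: the developing
map is a homeomorphism. -/
theorem result (X Γ E : Type) [NormedAddCommGroup E] [NormedSpace ℝ E] [FiniteDimensional ℝ E]
    [TopologicalSpace X] [T2Space X] [SecondCountableTopology X] [ConnectedSpace X] [Group Γ]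
    [MulAction Γ X] (dev : X → E) (hol : Γ →* (E ≃ᵃ[ℝ] E)) (D : AffData X Γ E dev hol)
    (hinj : Function.Injective dev) (H : Subgroup Γ) (hH : H.FiniteIndex) (W : Submodule ℝ E)
    (hW : ∀ γ ∈ H, ∀ w ∈ W, (hol γ).linear w = w)
    (hd : Module.finrank ℝ E ≤ Module.finrank ℝ W + 2) : IsHomeomorph dev :=
  Pool.Agent.Helper63.Mk.pvf D hinj H hH W hW hd

end Pool.Agent.Results.MP_df2bd8_gt.ParallelVectorFields
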